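import Mathlib

/-!
# Second numerical index of an `ℓ₂`-sum of two real normed spaces

For all nonzero real normed spaces `Y`, `W` (complete or not) we prove
`n'(Y ⊕₂ W) ≤ min (n'(Y)) (n'(W))`.

The point of the proof: for a skew-hermitian operator `S` on `Y ⊕₂ W`, which need not be diagonal,
the compression of `S` to `Y` is again skew-hermitian, because every pair `(y, y*)` in `Π(Y)`
gives the pair `((y,0), y* ∘ fst)` in `Π(Y ⊕₂ W)`.
-/

open scoped ENNReal

namespace Pool.Agent.Results.MP_01d095_an.SecondIndexL2Sum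

section Defs

variable (X : Type*) [NormedAddCommGroup X] [NormedSpace ℝ X]

/-- `Π(X)`: all pairs `(x, x*)` with `x` in the unit sphere of `X`, `x*` in the unit sphere of the
dual of `X`, and `x*(x) = 1`. -/
def statePairs : Set (X × (X →L[ℝ] ℝ)) :=
  {p | ‖p.1‖ = 1 ∧ ‖p.2‖ = 1 ∧ p.2 p.1 = 1}

variable {X}

/-- The numerical radius `v(T) = sup {|x*(T x)| : (x, x*) ∈ Π(X)}`. -/
noncomputable def numericalRadius (T : X →L[ℝ] X) : ℝ :=
  sSup {r : ℝ | ∃ p ∈ statePairs X, r = |p.2 (T p.1)|}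

variable (X)

/-- `Z(X)`: the set of all skew-hermitian operators on `X`, i.e. those with numerical radius `0`. -/
def skewHermitian : Set (X →L[ℝ] X) := {S | numericalRadius S = 0}

variable {X}

/-- The quotient norm `‖T + Z(X)‖ = inf {‖T - S‖ : S ∈ Z(X)}`. -/
noncomputable def normModSkew (T : X →L[ℝ] X) : ℝ :=
  sInf {r : ℝ | ∃ S ∈ skewHermitian X, r = ‖T - S‖}

variable (X)

/-- The second numerical index of `X`, the largest `k ≥ 0` such that
`k * ‖T + Z(X)‖ ≤ v(T)` for all bounded operators `T` on `X`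
(see `isGreatest_secondNumericalIndex`). -/
noncomputable def secondNumericalIndex : ℝ :=
  sSup {k : ℝ | 0 ≤ k ∧ ∀ T : X →L[ℝ] X, k * normModSkew T ≤ numericalRadius T}

end Defs

section Basic

variable {X : Type*} [NormedAddCommGroup X] [NormedSpace ℝ X]

theorem abs_apply_le_norm (T : X →L[ℝ] X) {p : X × (X →L[ℝ] ℝ)} (hp : p ∈ statePairs X) :
    |p.2 (T p.1)| ≤ ‖T‖ := by
  obtain ⟨h1, h2, -⟩ := hp
  have h3 : |p.2 (T p.1)| ≤ ‖p.2‖ * ‖T p.1‖ := by
    simpa using p.2.le_opNorm (T p.1)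
  have h4 : ‖T p.1‖ ≤ ‖T‖ * ‖p.1‖ := T.le_opNorm p.1
  rw [h2, one_mul] at h3
  rw [h1, mul_one] at h4
  exact h3.trans h4

theorem bddAbove_range (T : X →L[ℝ] X) :
    BddAbove {r : ℝ | ∃ p ∈ statePairs X, r = |p.2 (T p.1)|} :=
  ⟨‖T‖, by rintro r ⟨p, hp, rfl⟩; exact abs_apply_le_norm T hp⟩

theorem abs_apply_le_numericalRadius (T : X →L[ℝ] X) {p : X × (X →L[ℝ] ℝ)}
    (hp : p ∈ statePairs X) : |p.2 (T p.1)| ≤ numericalRadius T :=
  le_csSup (bddAbove_range T) ⟨p, hp, rfl⟩

theorem numericalRadius_nonneg (T : X →L[ℝ] X) : 0 ≤ numericalRadius T := by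
  apply Real.sSup_nonneg
  rintro r ⟨p, -, rfl⟩
  exact abs_nonneg _

theorem numericalRadius_le (T : X →L[ℝ] X) {c : ℝ} (hc : 0 ≤ c)
    (h : ∀ p ∈ statePairs X, |p.2 (T p.1)| ≤ c) : numericalRadius T ≤ c := by
  apply Real.sSup_le _ hc
  rintro r ⟨p, hp, rfl⟩
  exact h p hp

theorem mem_skewHermitian_iff (S : X →L[ℝ] X) :
    S ∈ skewHermitian X ↔ ∀ p ∈ statePairs X, p.2 (S p.1) = 0 := by
  constructor
  · intro h p hp
    have h0 : numericalRadius S = 0 := h
    have h1 := abs_apply_le_numericalRadius S hp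
    rw [h0] at h1
    exact abs_eq_zero.mp (le_antisymm h1 (abs_nonneg _))
  · intro h
    have : numericalRadius S ≤ 0 :=
      numericalRadius_le S le_rfl (fun p hp => by rw [h p hp, abs_zero])
    exact le_antisymm this (numericalRadius_nonneg S)

theorem zero_mem_skewHermitian : (0 : X →L[ℝ] X) ∈ skewHermitian X := by
  rw [mem_skewHermitian_iff]
  intro p _
  simp

theorem normModSkew_le (T : X →L[ℝ] X) {S : X →L[ℝ] X} (hS : S ∈ skewHermitian X) :
    normModSkew T ≤ ‖T - S‖ :=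
  csInf_le ⟨0, by rintro r ⟨S, -, rfl⟩; exact norm_nonneg _⟩ ⟨S, hS, rfl⟩

theorem le_normModSkew (T : X →L[ℝ] X) {c : ℝ} (h : ∀ S ∈ skewHermitian X, c ≤ ‖T - S‖) :
    c ≤ normModSkew T := by
  unfold normModSkew
  apply le_csInf
  · exact ⟨‖T - 0‖, 0, zero_mem_skewHermitian, rfl⟩
  rintro r ⟨S, hS, rfl⟩
  exact h S hS

theorem normModSkew_nonneg (T : X →L[ℝ] X) : 0 ≤ normModSkew T :=
  le_normModSkew T (fun _ _ => norm_nonneg _)

/-- `v(T) ≤ ‖T + Z(X)‖`. -/
theorem numericalRadius_le_normModSkew (T : X →L[ℝ] X) :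
    numericalRadius T ≤ normModSkew T := by
  apply le_normModSkew
  intro S hS
  apply numericalRadius_le T (norm_nonneg _)
  intro p hp
  have h0 := (mem_skewHermitian_iff S).mp hS p hp
  have h1 := abs_apply_le_norm (T - S) hp
  simpa [h0] using h1

theorem exists_mem_statePairs (X : Type*) [NormedAddCommGroup X] [NormedSpace ℝ X] [Nontrivial X] :
    ∃ p, p ∈ statePairs X := by
  obtain ⟨x, hx⟩ := exists_ne (0 : X)
  have hxn : ‖x‖ ≠ 0 := norm_ne_zero_iff.mpr hx
  obtain ⟨g, hg1, hg2⟩ := exists_dual_vector ℝ x hxn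
  refine ⟨(‖x‖⁻¹ • x, g), ?_, hg1, ?_⟩
  · simp [norm_smul, hxn]
  · simp only [map_smul, smul_eq_mul]
    rw [hg2]
    simp [hxn]

variable (X) in
theorem zero_mem_set :
    (0 : ℝ) ∈ {k : ℝ | 0 ≤ k ∧ ∀ T : X →L[ℝ] X, k * normModSkew T ≤ numericalRadius T} :=
  ⟨le_rfl, fun T => by rw [zero_mul]; exact numericalRadius_nonneg T⟩

variable (X) in
/-- Every admissible `k` is at most `1`. -/
theorem le_one_of_mem_set [Nontrivial X] {k : ℝ}
    (hk : k ∈ {k : ℝ | 0 ≤ k ∧ ∀ T : X →L[ℝ] X, k * normModSkew T ≤ numericalRadius T}) :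
    k ≤ 1 := by
  obtain ⟨p, hp⟩ := exists_mem_statePairs X
  have h1 : (1 : ℝ) ≤ numericalRadius (ContinuousLinearMap.id ℝ X) := by
    have := abs_apply_le_numericalRadius (ContinuousLinearMap.id ℝ X) hp
    simpa [hp.2.2] using this
  have h2 : numericalRadius (ContinuousLinearMap.id ℝ X) ≤ 1 := by
    apply numericalRadius_le _ zero_le_one
    intro q hq
    simp [hq.2.2]
  have h3 : (1 : ℝ) ≤ normModSkew (ContinuousLinearMap.id ℝ X) :=
    h1.trans (numericalRadius_le_normModSkew _)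
  have h4 := hk.2 (ContinuousLinearMap.id ℝ X)
  have h5 := hk.1
  nlinarith

variable (X) in
theorem bddAbove_set [Nontrivial X] :
    BddAbove {k : ℝ | 0 ≤ k ∧ ∀ T : X →L[ℝ] X, k * normModSkew T ≤ numericalRadius T} :=
  ⟨1, fun _ hk => le_one_of_mem_set X hk⟩

/-- Sanity check: for a nonzero space the supremum defining the second numerical index is a
maximum. -/
theorem isGreatest_secondNumericalIndex (X : Type*) [NormedAddCommGroup X] [NormedSpace ℝ X]
    [Nontrivial X] :
    IsGreatest {k : ℝ | 0 ≤ k ∧ ∀ T : X →L[ℝ] X, k * normModSkew T ≤ numericalRadius T}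
      (secondNumericalIndex X) := by
  refine ⟨⟨le_csSup (bddAbove_set X) (zero_mem_set X), ?_⟩, ?_⟩
  · intro T
    rcases (normModSkew_nonneg T).eq_or_lt with h0 | h0
    · rw [← h0, mul_zero]; exact numericalRadius_nonneg T
    · rw [← le_div_iff₀ h0]
      apply csSup_le ⟨0, zero_mem_set X⟩
      rintro k ⟨-, hk⟩
      rw [le_div_iff₀ h0]
      exact hk T
  · intro k hk
    exact le_csSup (bddAbove_set X) hk

end Basic

section Sum

variable {Y W : Type*} [NormedAddCommGroup Y] [NormedSpace ℝ Y]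
  [NormedAddCommGroup W] [NormedSpace ℝ W]

/-- The inclusion of the first summand. -/
noncomputable def inlL (Y W : Type*) [NormedAddCommGroup Y] [NormedSpace ℝ Y]
    [NormedAddCommGroup W] [NormedSpace ℝ W] : Y →L[ℝ] WithLp 2 (Y × W) :=
  (WithLp.prodContinuousLinearEquiv 2 ℝ Y W).symm.toContinuousLinearMap.comp
    (ContinuousLinearMap.inl ℝ Y W)

/-- The inclusion of the second summand. -/
noncomputable def inrL (Y W : Type*) [NormedAddCommGroup Y] [NormedSpace ℝ Y]
    [NormedAddCommGroup W] [NormedSpace ℝ W] : W →L[ℝ] WithLp 2 (Y × W) :=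
  (WithLp.prodContinuousLinearEquiv 2 ℝ Y W).symm.toContinuousLinearMap.comp
    (ContinuousLinearMap.inr ℝ Y W)

/-- The projection onto the first summand. -/
noncomputable def fstL (Y W : Type*) [NormedAddCommGroup Y] [NormedSpace ℝ Y]
    [NormedAddCommGroup W] [NormedSpace ℝ W] : WithLp 2 (Y × W) →L[ℝ] Y :=
  WithLp.fstL 2 ℝ Y W

/-- The projection onto the second summand. -/
noncomputable def sndL (Y W : Type*) [NormedAddCommGroup Y] [NormedSpace ℝ Y]
    [NormedAddCommGroup W] [NormedSpace ℝ W] : WithLp 2 (Y × W) →L[ℝ] W :=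
  WithLp.sndL 2 ℝ Y W

theorem norm_inlL (y : Y) : ‖inlL Y W y‖ = ‖y‖ := WithLp.norm_toLp_fst 2 Y W y

theorem norm_inrL (w : W) : ‖inrL Y W w‖ = ‖w‖ := WithLp.norm_toLp_snd 2 Y W w

theorem fstL_inlL (y : Y) : fstL Y W (inlL Y W y) = y := rfl

theorem fstL_inrL (w : W) : fstL Y W (inrL Y W w) = 0 := rfl

theorem sndL_inrL (w : W) : sndL Y W (inrL Y W w) = w := rfl

theorem sndL_inlL (y : Y) : sndL Y W (inlL Y W y) = 0 := rfl

theorem norm_fstL_le (x : WithLp 2 (Y × W)) : ‖fstL Y W x‖ ≤ ‖x‖ := WithLp.norm_fst_le Y x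

theorem norm_sndL_le (x : WithLp 2 (Y × W)) : ‖sndL Y W x‖ ≤ ‖x‖ := WithLp.norm_snd_le Y x

theorem inlL_add_inrL (x : WithLp 2 (Y × W)) :
    inlL Y W (fstL Y W x) + inrL Y W (sndL Y W x) = x := by
  apply (WithLp.prodContinuousLinearEquiv 2 ℝ Y W).injective
  rw [map_add]
  ext
  · change (fstL Y W x) + 0 = fstL Y W x
    simp
  · change 0 + (sndL Y W x) = sndL Y W x
    simp

theorem norm_sq (x : WithLp 2 (Y × W)) :
    ‖x‖ ^ 2 = ‖fstL Y W x‖ ^ 2 + ‖sndL Y W x‖ ^ 2 := WithLp.prod_norm_sq_eq_of_L2 x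


/-- For `(x, x*)` in `Π(Y ⊕₂ W)` the functional `x*` is normed on each coordinate:
`x*(x₁, 0) = ‖x*|_Y‖ ‖x₁‖` and `x*(0, x₂) = ‖x*|_W‖ ‖x₂‖`. -/
theorem coord_eq {p : WithLp 2 (Y × W) × (WithLp 2 (Y × W) →L[ℝ] ℝ)}
    (hp : p ∈ statePairs (WithLp 2 (Y × W))) :
    p.2 (inlL Y W (fstL Y W p.1)) = ‖p.2.comp (inlL Y W)‖ * ‖fstL Y W p.1‖ ∧
    p.2 (inrL Y W (sndL Y W p.1)) = ‖p.2.comp (inrL Y W)‖ * ‖sndL Y W p.1‖ := by
  obtain ⟨x, f⟩ := p
  obtain ⟨h1, h2, h3⟩ := hp
  simp only at h1 h2 h3 ⊢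
  set a := ‖fstL Y W x‖ with ha
  set c := ‖sndL Y W x‖ with hc
  have ha0 : 0 ≤ a := norm_nonneg _
  have hc0 : 0 ≤ c := norm_nonneg _
  have hac : a ^ 2 + c ^ 2 = 1 := by rw [ha, hc, ← norm_sq, h1]; norm_num
  have ha1 : a ≤ 1 := by nlinarith
  have hc1 : c ≤ 1 := by nlinarith
  -- basic bound with a unit vector in each coordinate
  have key : ∀ (y : Y) (w : W), ‖y‖ = 1 → ‖w‖ = 1 →
      a * |f (inlL Y W y)| + c * |f (inrL Y W w)| ≤ 1 := by
    intro y w hy hw
    obtain ⟨s, hs, hs'⟩ : ∃ s : ℝ, |s| = 1 ∧ |f (inlL Y W y)| = s * f (inlL Y W y) := by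
      rcases le_total 0 (f (inlL Y W y)) with h | h
      · exact ⟨1, by simp, by rw [abs_of_nonneg h, one_mul]⟩
      · exact ⟨-1, by simp, by rw [abs_of_nonpos h, neg_one_mul]⟩
    obtain ⟨t, ht, ht'⟩ : ∃ t : ℝ, |t| = 1 ∧ |f (inrL Y W w)| = t * f (inrL Y W w) := by
      rcases le_total 0 (f (inrL Y W w)) with h | h
      · exact ⟨1, by simp, by rw [abs_of_nonneg h, one_mul]⟩
      · exact ⟨-1, by simp, by rw [abs_of_nonpos h, neg_one_mul]⟩
    set z : WithLp 2 (Y × W) := inlL Y W ((a * s) • y) + inrL Y W ((c * t) • w) with hz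
    have hz1 : ‖z‖ ^ 2 = 1 := by
      rw [norm_sq]
      have e1 : fstL Y W z = (a * s) • y := by
        rw [hz, map_add, fstL_inlL, fstL_inrL, add_zero]
      have e2 : sndL Y W z = (c * t) • w := by
        rw [hz, map_add, sndL_inlL, sndL_inrL, zero_add]
      rw [e1, e2, norm_smul, norm_smul, hy, hw]
      simp only [Real.norm_eq_abs, abs_mul, hs, ht, mul_one, sq_abs]
      exact hac
    have hz2 : ‖z‖ = 1 := by
      have := norm_nonneg z
      nlinarith
    have hz3 : f z ≤ 1 := by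
      have := f.le_opNorm z
      rw [h2, hz2, one_mul] at this
      exact (le_abs_self _).trans this
    have hz4 : f z = a * |f (inlL Y W y)| + c * |f (inrL Y W w)| := by
      rw [hz, map_add, map_smul, map_smul, map_smul, map_smul, hs', ht']
      simp only [smul_eq_mul]
      ring
    rw [← hz4]
    exact hz3
  have hf1 : ∀ y : Y, ‖y‖ = 1 → |f (inlL Y W y)| ≤ 1 := by
    intro y hy
    have := f.le_opNorm (inlL Y W y)
    rwa [h2, norm_inlL, hy, one_mul] at this
  have hf2 : ∀ w : W, ‖w‖ = 1 → |f (inrL Y W w)| ≤ 1 := by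
    intro w hw
    have := f.le_opNorm (inrL Y W w)
    rwa [h2, norm_inrL, hw, one_mul] at this
  set b := ‖f.comp (inlL Y W)‖ with hb
  set d := ‖f.comp (inrL Y W)‖ with hd
  have hb1 : b ≤ 1 := by
    apply ContinuousLinearMap.opNorm_le_of_unit_norm zero_le_one
    intro y hy
    exact hf1 y hy
  have hb0 : 0 ≤ b := norm_nonneg _
  have step2 : ∀ w : W, ‖w‖ = 1 → a * b ≤ 1 - c * |f (inrL Y W w)| := by
    intro w hw
    have h5 : 0 ≤ 1 - c * |f (inrL Y W w)| := by
      have := hf2 w hw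
      have := abs_nonneg (f (inrL Y W w))
      nlinarith
    have h6 : ‖a • (f.comp (inlL Y W))‖ ≤ 1 - c * |f (inrL Y W w)| := by
      apply ContinuousLinearMap.opNorm_le_of_unit_norm h5
      intro y hy
      have h7 := key y w hy hw
      have h8 : ‖(a • (f.comp (inlL Y W))) y‖ = a * |f (inlL Y W y)| := by
        simp [abs_of_nonneg ha0]
      rw [h8]
      linarith
    rwa [norm_smul, Real.norm_eq_abs, abs_of_nonneg ha0] at h6
  have step3 : c * d ≤ 1 - a * b := by
    have h5 : 0 ≤ 1 - a * b := by nlinarith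
    have h6 : ‖c • (f.comp (inrL Y W))‖ ≤ 1 - a * b := by
      apply ContinuousLinearMap.opNorm_le_of_unit_norm h5
      intro w hw
      have h7 := step2 w hw
      have h8 : ‖(c • (f.comp (inrL Y W))) w‖ = c * |f (inrL Y W w)| := by
        simp [abs_of_nonneg hc0]
      rw [h8]
      linarith
    rwa [norm_smul, Real.norm_eq_abs, abs_of_nonneg hc0] at h6
  have h9 : f (inlL Y W (fstL Y W x)) ≤ b * a := by
    have := (f.comp (inlL Y W)).le_opNorm (fstL Y W x)
    exact (le_abs_self _).trans this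
  have h10 : f (inrL Y W (sndL Y W x)) ≤ d * c := by
    have := (f.comp (inrL Y W)).le_opNorm (sndL Y W x)
    exact (le_abs_self _).trans this
  have h11 : f (inlL Y W (fstL Y W x)) + f (inrL Y W (sndL Y W x)) = 1 := by
    rw [← map_add, inlL_add_inrL, h3]
  constructor <;> linarith

end Sum

section Transfer

variable {X Y : Type*} [NormedAddCommGroup X] [NormedSpace ℝ X]
  [NormedAddCommGroup Y] [NormedSpace ℝ Y]

/-- The general transfer principle: `Y` is a norm-one complemented subspace of `X` for which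
every pair in `Π(X)` is normed on the coordinate `Y`. -/
theorem index_le_of_summand [Nontrivial Y] (i : Y →L[ℝ] X) (q : X →L[ℝ] Y)
    (hqi : ∀ y, q (i y) = y) (hi : ∀ y, ‖i y‖ = ‖y‖) (hq : ∀ x, ‖q x‖ ≤ ‖x‖)
    (hcoord : ∀ p ∈ statePairs X, p.2 (i (q p.1)) = ‖p.2.comp i‖ * ‖q p.1‖) :
    secondNumericalIndex X ≤ secondNumericalIndex Y := by
  have hqn : ‖q‖ ≤ 1 := q.opNorm_le_bound zero_le_one (fun x => by rw [one_mul]; exact hq x)
  have hin : ‖i‖ ≤ 1 := i.opNorm_le_bound zero_le_one (fun y => by rw [one_mul, hi])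
  -- compressions of skew-hermitian operators are skew-hermitian
  have hcomp : ∀ S ∈ skewHermitian X, q.comp (S.comp i) ∈ skewHermitian Y := by
    intro S hS
    rw [mem_skewHermitian_iff] at hS ⊢
    rintro ⟨y, g⟩ ⟨hy, hg, hgy⟩
    simp only at hy hg hgy
    have hmem : (i y, g.comp q) ∈ statePairs X := by
      refine ⟨by simpa [hi] using hy, ?_, by simpa [hqi] using hgy⟩
      apply le_antisymm
      · calc ‖g.comp q‖ ≤ ‖g‖ * ‖q‖ := g.opNorm_comp_le q
          _ ≤ 1 := by rw [hg, one_mul]; exact hqn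
      · have h1 := (g.comp q).le_opNorm (i y)
        have h2 : (g.comp q) (i y) = 1 := by simpa [hqi] using hgy
        rw [h2, hi, hy, mul_one] at h1
        simpa using h1
    have := hS _ hmem
    simpa using this
  -- the lifted operator has the same quotient norm, at least
  have hquot : ∀ T : Y →L[ℝ] Y, normModSkew T ≤ normModSkew (i.comp (T.comp q)) := by
    intro T
    apply le_normModSkew
    intro S hS
    refine (normModSkew_le T (hcomp S hS)).trans ?_
    have e : T - q.comp (S.comp i) = q.comp ((i.comp (T.comp q) - S).comp i) := by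
      ext y
      simp [hqi]
    rw [e]
    calc ‖q.comp ((i.comp (T.comp q) - S).comp i)‖
        ≤ ‖q‖ * ‖(i.comp (T.comp q) - S).comp i‖ := q.opNorm_comp_le _
      _ ≤ ‖q‖ * (‖i.comp (T.comp q) - S‖ * ‖i‖) := by
          gcongr
          exact ContinuousLinearMap.opNorm_comp_le _ _
      _ ≤ 1 * (‖i.comp (T.comp q) - S‖ * 1) := by gcongr
      _ = ‖i.comp (T.comp q) - S‖ := by ring
  -- the lifted operator has the same numerical radius, at most
  have hrad : ∀ T : Y →L[ℝ] Y, numericalRadius (i.comp (T.comp q)) ≤ numericalRadius T := by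
    intro T
    apply numericalRadius_le _ (numericalRadius_nonneg T)
    intro p hp
    have hc := hcoord p hp
    obtain ⟨x, f⟩ := p
    obtain ⟨h1, h2, h3⟩ := hp
    simp only at h1 h2 h3 hc ⊢
    set a := ‖q x‖ with ha
    set b := ‖f.comp i‖ with hb
    have ha0 : 0 ≤ a := norm_nonneg _
    have hb0 : 0 ≤ b := norm_nonneg _
    have ha1 : a ≤ 1 := by rw [ha, ← h1]; exact hq x
    have hb1 : b ≤ 1 := by
      calc b ≤ ‖f‖ * ‖i‖ := f.opNorm_comp_le i
        _ ≤ 1 := by rw [h2, one_mul]; exact hin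
    have e1 : f ((i.comp (T.comp q)) x) = (f.comp i) (T (q x)) := rfl
    rw [e1]
    rcases eq_or_ne a 0 with h0 | h0
    · have h5 : q x = 0 := by rw [← norm_eq_zero]; exact h0
      rw [h5]
      simpa using numericalRadius_nonneg T
    rcases eq_or_ne b 0 with h0' | h0'
    · have h5 : f.comp i = 0 := by rw [← norm_eq_zero]; exact h0'
      rw [h5]
      simpa using numericalRadius_nonneg T
    have hmem : (a⁻¹ • q x, b⁻¹ • f.comp i) ∈ statePairs Y := by
      refine ⟨?_, ?_, ?_⟩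
      · simp only [norm_smul, norm_inv, Real.norm_eq_abs, abs_of_nonneg ha0]
        rw [← ha]
        exact inv_mul_cancel₀ h0
      · simp only [norm_smul, norm_inv, Real.norm_eq_abs, abs_of_nonneg hb0]
        rw [← hb]
        exact inv_mul_cancel₀ h0'
      · have : (f.comp i) (q x) = b * a := hc
        simp only [smul_apply, map_smul, this, smul_eq_mul]
        field_simp
    have h6 := abs_apply_le_numericalRadius T hmem
    simp only [smul_apply, map_smul, smul_eq_mul, abs_mul, abs_inv,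
      abs_of_nonneg ha0, abs_of_nonneg hb0] at h6
    have hapos : 0 < a := lt_of_le_of_ne ha0 (Ne.symm h0)
    have hbpos : 0 < b := lt_of_le_of_ne hb0 (Ne.symm h0')
    have h7 : |(f.comp i) (T (q x))| ≤ (a * b) * numericalRadius T := by
      have h8 : (a⁻¹ * (b⁻¹ * |(f.comp i) (T (q x))|)) * (a * b) =
          |(f.comp i) (T (q x))| := by
        field_simp
      rw [← h8, mul_comm (a * b)]
      exact mul_le_mul_of_nonneg_right h6 (by positivity)
    have h9 : a * b ≤ 1 := by nlinarith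
    have h10 := numericalRadius_nonneg T
    nlinarith
  apply csSup_le ⟨0, zero_mem_set X⟩
  rintro k ⟨hk0, hk⟩
  apply le_csSup (bddAbove_set Y)
  refine ⟨hk0, fun T => ?_⟩
  calc k * normModSkew T ≤ k * normModSkew (i.comp (T.comp q)) := by
        gcongr
        exact hquot T
    _ ≤ numericalRadius (i.comp (T.comp q)) := hk _
    _ ≤ numericalRadius T := hrad T

end Transfer

/-- **The second numerical index of an `ℓ₂`-sum.** For all nonzero real normed spaces `Y`, `W`
(in particular for all nonzero real Banach spaces),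
`n'(Y ⊕₂ W) ≤ min (n'(Y)) (n'(W))`. -/
theorem result (Y W : Type*) [NormedAddCommGroup Y] [NormedSpace ℝ Y] [Nontrivial Y]
    [NormedAddCommGroup W] [NormedSpace ℝ W] [Nontrivial W] :
    secondNumericalIndex (WithLp 2 (Y × W)) ≤
      min (secondNumericalIndex Y) (secondNumericalIndex W) := by
  apply le_min
  · exact index_le_of_summand (inlL Y W) (fstL Y W) fstL_inlL norm_inlL norm_fstL_le
      (fun p hp => (coord_eq hp).1)
  · exact index_le_of_summand (inrL Y W) (sndL Y W) sndL_inrL norm_inrL norm_sndL_le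
      (fun p hp => (coord_eq hp).2)

end Pool.Agent.Results.MP_01d095_an.SecondIndexL2Sum
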